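import Pool.Agent.LCI.Stmts

/-!
# Row MDX of squad LCI: the derivative of the matrix of the flow
-/

set_option autoImplicit false

namespace Pool.Agent.LCI.H19

open Pool.Agent.LCI
open scoped BigOperators

theorem coeff_cd {k K : Type} [Field k] [Field K] [Algebra k K] (E : Derivation k K K)
    (P : PowerSeries K) (j : ℕ) :
    PowerSeries.coeff j (cd E P) = E (PowerSeries.coeff j P) := by
  unfold cd
  rw [PowerSeries.coeff_mk]

theorem mdx (h1 : SpnStmt) (h2 : PsiStmt) (h3 : CdrStmt) : MdxStmt := by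
  intro k K _ _ _ _ n F D i l
  obtain ⟨-, -, p3, p4⟩ := h2 k K D
  obtain ⟨-, -, -, c4, -⟩ := h3 k K (F.d i)
  rw [c4, p4, ← p3]
  ext j
  have e := h1 k K n F ⁅F.d i, D⁆ (PowerSeries.coeff j (psi D (F.x l)))
  rw [map_sub, map_sum, coeff_cd, coeff_cd, coeff_cd, coeff_cd, ← Derivation.commutator_apply, e]
  apply Finset.sum_congr rfl
  intro m _
  rw [PowerSeries.coeff_C_mul, coeff_cd, Derivation.commutator_apply, F.dual]
  have e2 : D (if i = m then (1 : K) else 0) = 0 := by
    split_ifs
    · exact D.map_one_eq_zero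
    · exact map_zero D
  rw [e2, sub_zero]

end Pool.Agent.LCI.H19
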