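import Pool.Agent.LCI.Stmts

/-!
# Row TIV of squad LCI: lc places of torus invariant sequences are torus invariant
-/

set_option autoImplicit false

namespace Pool.Agent.LCI.H19

open Pool.Agent.LCI
open scoped BigOperators

theorem tiv (h1 : InvStmt) (h2 : EudStmt) (h3 : EprStmt) (h4 : LamStmt) : TivStmt := by
  intro k R K _ _ _ _ _ _ _ _ _ _ _ n F l g m a c v r 𝒜 _ hl hlct hplace hT f u hu
  classical
  obtain ⟨lam, hlam⟩ := h4 r (DirectSum.decompose 𝒜 f).support
  obtain ⟨D, hD⟩ := h2 k R K n F g m a r 𝒜 lam hT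
  have hpres := h3 k R K n F l g m a r 𝒜 lam D hT hD
  have hinj : Function.Injective (algebraMap R K) := IsFractionRing.injective R K
  have hg : g ≠ 0 := by
    obtain ⟨g1, g2, _, _, _, _, n1, n2, e⟩ := hT.canon
    rw [e]
    exact div_ne_zero (fun h => n1 (hinj (by rw [h, map_zero])))
      (fun h => n2 (hinj (by rw [h, map_zero])))
  have hinv := h1 k R K n F l g m a c D v hl hg hlct hplace hpres
  -- the elements which are zero or of value at least `v f`
  obtain ⟨V, hV⟩ : ∃ V : K → Prop, ∀ h, V h ↔ (h = 0 ∨ v.v (algebraMap R K f) ≤ v.v h) :=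
    ⟨fun h => h = 0 ∨ v.v (algebraMap R K f) ≤ v.v h, fun _ => Iff.rfl⟩
  have hVadd : ∀ x y, V x → V y → V (x + y) := by
    intro x y hx hy
    rw [hV] at hx hy ⊢
    rcases hx with rfl | hx
    · rw [zero_add]; exact hy
    · rcases hy with rfl | hy
      · rw [add_zero]; exact Or.inr hx
      · by_cases hx0 : x = 0
        · rw [hx0, zero_add]; exact Or.inr hy
        by_cases hy0 : y = 0
        · rw [hy0, add_zero]; exact Or.inr hx
        by_cases hxy : x + y = 0
        · exact Or.inl hxy
        · exact Or.inr ((le_min hx hy).trans (v.add' x y hx0 hy0 hxy))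
  have hVD : ∀ x, V x → V (D x) := by
    intro x hx
    rw [hV] at hx ⊢
    by_cases hD0 : D x = 0
    · exact Or.inl hD0
    · have hx0 : x ≠ 0 := fun h => hD0 (by rw [h, map_zero])
      exact Or.inr ((hx.resolve_left hx0).trans (hinv x hx0 hD0))
  have hconst : ∀ (q : k) (x : K), q ≠ 0 → x ≠ 0 → v.v (algebraMap k K q * x) = v.v x := by
    intro q x hq hx
    have hq' : algebraMap k K q ≠ 0 := fun h => hq ((algebraMap k K).injective (by
      rw [h, map_zero]))
    rw [v.mul' _ _ hq' hx, v.const' q hq, zero_add]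
  have hVc : ∀ (q : k) (x : K), V x → V (algebraMap k K q * x) := by
    intro q x hx
    rw [hV] at hx ⊢
    by_cases hq : q = 0
    · left; rw [hq, map_zero, zero_mul]
    · by_cases hx0 : x = 0
      · left; rw [hx0, mul_zero]
      · right
        rw [hconst q x hq hx0]
        exact hx.resolve_left hx0
  -- the weights
  obtain ⟨L, hL⟩ : ∃ L : (Fin r → ℤ) → k, ∀ w, L w = ((∑ i, lam i * w i : ℤ) : k) :=
    ⟨_, fun _ => rfl⟩
  have hLinj : ∀ w ∈ (DirectSum.decompose 𝒜 f).support,
      ∀ w' ∈ (DirectSum.decompose 𝒜 f).support, L w = L w' → w = w' := by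
    intro w hw w' hw' e
    rw [hL, hL] at e
    exact hlam hw hw' (Int.cast_injective e)
  obtain ⟨fw, hfw⟩ : ∃ fw : (Fin r → ℤ) → K,
      ∀ w, fw w = algebraMap R K (DirectSum.decompose 𝒜 f w : R) := ⟨_, fun _ => rfl⟩
  have hDf : ∀ w, D (fw w) = algebraMap k K (L w) * fw w := by
    intro w
    rw [hfw, hD w _ (SetLike.coe_mem _), hL, map_intCast]
  have hsum : ∑ w ∈ (DirectSum.decompose 𝒜 f).support, fw w = algebraMap R K f := by
    conv_rhs => rw [← DirectSum.sum_support_decompose 𝒜 f]
    rw [map_sum]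
    exact Finset.sum_congr rfl (fun w _ => hfw w)
  have key : ∀ t : Finset (Fin r → ℤ), V (∑ w ∈ (DirectSum.decompose 𝒜 f).support,
      algebraMap k K (∏ w' ∈ t, (L w - L w')) * fw w) := by
    intro t
    induction t using Finset.induction_on with
    | empty =>
      simp only [Finset.prod_empty, map_one, one_mul]
      rw [hsum, hV]
      exact Or.inr le_rfl
    | insert w0 t h0 ih =>
      have e : (∑ w ∈ (DirectSum.decompose 𝒜 f).support,
          algebraMap k K (∏ w' ∈ insert w0 t, (L w - L w')) * fw w) =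
          D (∑ w ∈ (DirectSum.decompose 𝒜 f).support,
            algebraMap k K (∏ w' ∈ t, (L w - L w')) * fw w) +
          algebraMap k K (-L w0) * (∑ w ∈ (DirectSum.decompose 𝒜 f).support,
            algebraMap k K (∏ w' ∈ t, (L w - L w')) * fw w) := by
        rw [map_sum, Finset.mul_sum, ← Finset.sum_add_distrib]
        apply Finset.sum_congr rfl
        intro w _
        rw [Finset.prod_insert h0, ← Algebra.smul_def (∏ w' ∈ t, (L w - L w')) (fw w), D.map_smul,
          hDf, Algebra.smul_def, Algebra.smul_def]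
        simp only [map_mul, map_sub, map_neg]
        ring
      rw [e]
      exact hVadd _ _ (hVD _ ih) (hVc _ _ ih)
  have hu' : (DirectSum.decompose 𝒜 f u : R) ≠ 0 := by
    rw [← GradedRing.proj_apply]
    exact hu
  have hus : u ∈ (DirectSum.decompose 𝒜 f).support := by
    rw [DFinsupp.mem_support_iff]
    intro h
    exact hu' (by rw [h]; rfl)
  have k1 := key ((DirectSum.decompose 𝒜 f).support.erase u)
  rw [Finset.sum_eq_single_of_mem u hus (by
    intro w hw hwu
    have e0 : (∏ w' ∈ (DirectSum.decompose 𝒜 f).support.erase u, (L w - L w')) = 0 :=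
      Finset.prod_eq_zero (Finset.mem_erase.mpr ⟨hwu, hw⟩) (sub_self (L w))
    rw [e0, map_zero, zero_mul])] at k1
  have hprod : (∏ w' ∈ (DirectSum.decompose 𝒜 f).support.erase u, (L u - L w')) ≠ 0 := by
    rw [Finset.prod_ne_zero_iff]
    intro w hw h
    rw [Finset.mem_erase] at hw
    exact hw.1 (hLinj u hus w hw.2 (sub_eq_zero.mp h)).symm
  have hfu : fw u ≠ 0 := by
    rw [hfw]
    exact fun h => hu' (hinj (by rw [h, map_zero]))
  rw [hV] at k1
  have k2 := k1.resolve_left (mul_ne_zero (fun h => hprod ((algebraMap k K).injective (by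
      rw [h, map_zero]))) hfu)
  rw [hconst _ _ hprod hfu, hfw] at k2
  rw [GradedRing.proj_apply]
  exact k2

end Pool.Agent.LCI.H19
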